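import Mathlib
import Pool.Agent.N423.HB.XR

/-!
# X-replacements which produce graphs with a dominating rigid subgraph

If an X-replacement `G'` of a generically 3-independent graph has a set `R` of pairwise linked
vertices such that every other vertex is linked to at least one vertex of `R` (for example, a
dominating clique), then `G'` is generically 3-independent.

Proof (`Pool.Agent.N423.HB.xrc`): if `G'` is dependent, the new vertex `v` increases the rank by at
most four. In the closure `C` of `G'`, each edge at `v` which is implied by the other edges is in a
complete graph with five vertices, so the neighbours of `v` in `C` are a clique and at most one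
further vertex (`Pool.Agent.N423.DT.tgn4`). Hence one of the deleted edges is in the closure of
`G' - v`, or the increase is three and both deleted edges are in `C`; both are impossible because
the original graph is independent.

Paper proof and assembly: helper423. Lean parts (for `Pool.Agent.N423.DT.t_k5t`): helpers 233, 360,
578, 803, 222, 401, 519, 232, 499, 787, 441, 286, 51, 879, 221, 935, 697, 495, 273, 492, 596, 368,
27, 55, 559, 50, 407, 433, 654, 723, 475, 768. The counting lemmas for X-replacements are due to
helper647.
-/

set_option autoImplicit false

namespace Pool.Agent.Results.MP_5e72fd_co.XRigidHub

open Finset Pool.Agent.H789R5 Pool.Agent.H283R2.DR Pool.Agent.N423.DE Pool.Agent.N423.HB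
  Pool.Agent.N423.HB.XR

/-- **X-replacements which produce graphs with a dominating rigid subgraph preserve generic
3-independence.** The X-replacement `xrep G a b c d e` of a generically 3-independent graph `G` is
generically 3-independent if it has a nonempty set `R` of vertices which are pairwise linked in `ℝ³`
(adjacent pairs are linked), such that every other vertex is linked to at least one vertex of
`R`. -/
theorem result (V : Type) [Fintype V] (G : SimpleGraph V) (a b c d e : V)
    (hne : [a, b, c, d, e].Nodup) (hab : G.Adj a b) (hcd : G.Adj c d) (hG : Independent G)
    (R : Finset (Option V)) (hR : R.Nonempty)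
    (hlink : ∀ x ∈ R, ∀ y ∈ R, x ≠ y → Linked 3 (xrep G a b c d e) x y)
    (hdom : ∀ x, x ∉ R → ∃ r ∈ R, Linked 3 (xrep G a b c d e) x r) :
    Independent (xrep G a b c d e) :=
  xr V G a b c d e hne hab hcd hG R hR ⟨hlink, hdom⟩

end Pool.Agent.Results.MP_5e72fd_co.XRigidHub
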